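import Mathlib

namespace Pool.Agent.H.MP_92436f_lc
open Finset

noncomputable def T (a : ℝ) (g : ℤ → ℝ) : ℤ → ℝ :=
  fun z => (1 + a) / 2 * g (z + 1) + (1 - a) / 2 * g (z - 1)

noncomputable def U (a : ℝ) (g : ℤ → ℝ) : ℤ → ℝ :=
  fun z => (1 + a) / 2 * g (z + 1) - (1 - a) / 2 * g (z - 1)

noncomputable def sg (z : ℤ) : ℝ := if 0 < z then 1 else if z < 0 then -1 else 0

lemma sg_bd (z : ℤ) : |sg z| ≤ 1 := by
  unfold sg; split_ifs <;> simp

lemma T_bd {a : ℝ} (ha : |a| ≤ 1) {g : ℤ → ℝ} (hg : ∀ z, |g z| ≤ 1) (z : ℤ) : |T a g z| ≤ 1 := by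
  have h1 := abs_le.1 ha
  have h2 := abs_le.1 (hg (z + 1))
  have h3 := abs_le.1 (hg (z - 1))
  unfold T
  rw [abs_le]
  constructor <;> nlinarith

lemma U_bd {a : ℝ} (ha : |a| ≤ 1) {g : ℤ → ℝ} (hg : ∀ z, |g z| ≤ 1) (z : ℤ) : |U a g z| ≤ 1 := by
  have h1 := abs_le.1 ha
  have h2 := abs_le.1 (hg (z + 1))
  have h3 := abs_le.1 (hg (z - 1))
  unfold U
  rw [abs_le]
  constructor <;> nlinarith

lemma Tit_bd {a : ℝ} (ha : |a| ≤ 1) (r : ℕ) (z : ℤ) : |(T a)^[r] sg z| ≤ 1 := by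
  induction r generalizing z with
  | zero => exact sg_bd z
  | succ r ih => rw [Function.iterate_succ_apply']; exact T_bd ha ih z

lemma TU (a : ℝ) : Function.Commute (T a) (U a) := by
  intro g
  funext z
  simp only [T, U, add_sub_cancel_right, sub_add_cancel]
  ring

lemma closed (a : ℝ) (r : ℕ) (g : ℤ → ℝ) (z : ℤ) : (T a)^[r] g z =
    ∑ ij ∈ antidiagonal r, (r.choose ij.1 : ℝ) *
      (((1 + a) / 2) ^ ij.1 * ((1 - a) / 2) ^ ij.2 * g (z + ij.1 - ij.2)) := by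
  induction r generalizing z with
  | zero => simp
  | succ r ih =>
    rw [Function.iterate_succ_apply', T, ih, ih,
      sum_antidiagonal_choose_succ_mul
        (fun i j => ((1 + a) / 2) ^ i * ((1 - a) / 2) ^ j * g (z + i - j)) r, add_comm,
      mul_sum, mul_sum]
    congr 1
    · refine sum_congr rfl fun ij _ => ?_
      have : z - 1 + ij.1 - ij.2 = z + ij.1 - ((ij.2 + 1 : ℕ) : ℤ) := by push_cast; ring
      rw [this]; ring
    · refine sum_congr rfl fun ij hij => ?_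
      have h1 : z + 1 + ij.1 - ij.2 = z + ((ij.1 + 1 : ℕ) : ℤ) - ij.2 := by push_cast; ring
      rw [h1, Nat.choose_symm_of_eq_add (HasAntidiagonal.mem_antidiagonal.1 hij).symm]; ring

lemma center (a : ℝ) (k : ℕ) :
    ∑ ij ∈ antidiagonal (2 * k), ((2 * k).choose ij.1 : ℝ) *
      (((1 + a) / 2) ^ ij.1 * ((1 - a) / 2) ^ ij.2 * (if ij.1 = ij.2 then 1 else 0)) =
    ((2 * k).choose k : ℝ) / 4 ^ k * (1 - a ^ 2) ^ k := by
  rw [sum_eq_single (k, k)]
  · simp only [if_true, mul_one]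
    have : (1 + a) / 2 * ((1 - a) / 2) = (1 - a ^ 2) / 4 := by ring
    rw [← mul_pow, this, div_pow]
    ring
  · rintro ⟨i, j⟩ h hne
    have h1 := HasAntidiagonal.mem_antidiagonal.1 h
    have : i ≠ j := by
      rintro rfl
      apply hne
      have : i = k := by simp at h1; omega
      rw [this]
    simp [this]
  · intro h
    exact absurd (HasAntidiagonal.mem_antidiagonal.2 (by simp; omega)) h

lemma sg_pos {z : ℤ} (h : 0 < z) : sg z = 1 := by simp [sg, h]
lemma sg_neg {z : ℤ} (h : z < 0) : sg z = -1 := by simp [sg, h, h.le]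
lemma sg_zero : sg 0 = 0 := by simp [sg]

lemma TT (a : ℝ) (z : ℤ) (hz : z % 2 = 0) : T a (T a sg) z =
    sg z + a * (if z = 0 then 1 else 0) - ((1 - a) / 2) ^ 2 * (if z = 2 then 1 else 0) +
      ((1 + a) / 2) ^ 2 * (if z = -2 then 1 else 0) := by
  simp only [T, add_sub_cancel_right, sub_add_cancel]
  by_cases c1 : z = 0
  · subst c1
    rw [sg_pos (z := 0 + 1 + 1) (by norm_num), sg_neg (z := 0 - 1 - 1) (by norm_num), sg_zero]
    norm_num; ring
  by_cases c2 : z = 2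
  · subst c2
    rw [sg_pos (z := 2 + 1 + 1) (by norm_num), show (2 : ℤ) - 1 - 1 = 0 by norm_num, sg_zero,
      sg_pos (z := 2) (by norm_num)]
    norm_num; ring
  by_cases c3 : z = -2
  · subst c3
    rw [sg_neg (z := -2 - 1 - 1) (by norm_num), show (-2 : ℤ) + 1 + 1 = 0 by norm_num, sg_zero,
      sg_neg (z := -2) (by norm_num)]
    norm_num; ring
  rw [if_neg c1, if_neg c2, if_neg c3]
  rcases lt_or_gt_of_ne c1 with h | h
  · rw [sg_neg h, sg_neg (z := z + 1 + 1) (by omega), sg_neg (z := z - 1 - 1) (by omega)]; ring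
  · rw [sg_pos h, sg_pos (z := z + 1 + 1) (by omega), sg_pos (z := z - 1 - 1) (by omega)]; ring

lemma Usg (a : ℝ) (z : ℤ) (hz : z % 2 = 0) :
    U a sg z = (if z = 0 then 1 else 0) + a * sg z := by
  simp only [U]
  by_cases c1 : z = 0
  · subst c1
    rw [sg_pos (z := 0 + 1) (by norm_num), sg_neg (z := 0 - 1) (by norm_num), sg_zero]
    norm_num; ring
  rw [if_neg c1]
  rcases lt_or_gt_of_ne c1 with h | h
  · rw [sg_neg h, sg_neg (z := z + 1) (by omega), sg_neg (z := z - 1) (by omega)]; ring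
  · rw [sg_pos h, sg_pos (z := z + 1) (by omega), sg_pos (z := z - 1) (by omega)]; ring

lemma e_succ (a : ℝ) (k : ℕ) : (T a)^[2 * (k + 1)] sg 0 =
    (T a)^[2 * k] sg 0 + a * (((2 * k).choose k : ℝ) / 4 ^ k * (1 - a ^ 2) ^ k) := by
  have h0 : 2 * (k + 1) = 2 * k + 1 + 1 := by ring
  rw [h0, Function.iterate_succ_apply, Function.iterate_succ_apply, closed, closed, ← center,
    mul_sum, ← sum_add_distrib]
  set W : ℕ × ℕ → ℝ := fun ij => ((2 * k).choose ij.1 : ℝ) *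
    (if ij.1 = ij.2 + 2 then ((1 + a) / 2) ^ ij.1 * ((1 - a) / 2) ^ ij.1 else 0) with hW
  have hs : ∑ ij ∈ antidiagonal (2 * k), (W ij.swap - W ij) = 0 := by
    rw [sum_sub_distrib, Nat.sum_antidiagonal_swap, sub_self]
  refine Eq.trans ?_ (add_zero _)
  refine Eq.trans ?_ (congrArg _ hs)
  rw [← sum_add_distrib]
  refine sum_congr rfl ?_
  rintro ⟨i, j⟩ hij
  have h1 : i + j = 2 * k := HasAntidiagonal.mem_antidiagonal.1 hij
  have h2 : (2 * k).choose j = (2 * k).choose i := (Nat.choose_symm_of_eq_add h1.symm).symm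
  rw [TT a _ (by simp only []; omega)]
  simp only [hW, Prod.swap_prod_mk, h2]
  have e0 : ((0 : ℤ) + i - j = 0) ↔ i = j := by omega
  have e1 : ((0 : ℤ) + i - j = 2) ↔ i = j + 2 := by omega
  have e2 : ((0 : ℤ) + i - j = -2) ↔ j = i + 2 := by omega
  simp only [e0, e1, e2]
  generalize sg _ = w
  by_cases c2 : i = j + 2
  · subst c2
    rw [if_neg (by omega), if_pos rfl, if_neg (by omega), if_neg (by omega), if_pos rfl]
    ring
  · by_cases c3 : j = i + 2
    · subst c3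
      rw [if_neg (by omega), if_neg c2, if_pos rfl, if_pos rfl, if_neg c2]
      ring
    · rw [if_neg c2, if_neg c3, if_neg c3, if_neg c2]
      ring

lemma c_mono (k : ℕ) :
    ((2 * (k + 1)).choose (k + 1) : ℝ) / 4 ^ (k + 1) ≤ ((2 * k).choose k : ℝ) / 4 ^ k := by
  have h := Nat.succ_mul_centralBinom_succ k
  rw [Nat.centralBinom, Nat.centralBinom] at h
  have h1 : (2 * (k + 1)).choose (k + 1) ≤ 4 * (2 * k).choose k := by nlinarith
  have h2 : ((2 * (k + 1)).choose (k + 1) : ℝ) ≤ 4 * (2 * k).choose k := by exact_mod_cast h1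
  rw [div_le_div_iff₀ (by positivity) (by positivity), pow_succ]
  have : (0 : ℝ) < 4 ^ k := by positivity
  nlinarith

lemma e_low {a : ℝ} (ha : |a| ≤ 1) (k : ℕ) : ((2 * k).choose k : ℝ) / 4 ^ k ≤
    ((2 * k).choose k : ℝ) / 4 ^ k * (1 - a ^ 2) ^ k + a * (T a)^[2 * k] sg 0 := by
  induction k with
  | zero => simp [sg]
  | succ k ih =>
    rw [e_succ]
    have h1 := c_mono k
    have hu0 : 0 ≤ 1 - a ^ 2 := by have := abs_le.1 ha; nlinarith
    have hu1 : (1 - a ^ 2) ^ (k + 1) ≤ 1 := pow_le_one₀ hu0 (by nlinarith)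
    set c := ((2 * k).choose k : ℝ) / 4 ^ k
    set c' := ((2 * (k + 1)).choose (k + 1) : ℝ) / 4 ^ (k + 1)
    have h2 := mul_nonneg (sub_nonneg.2 h1) (sub_nonneg.2 hu1)
    rw [pow_succ (1 - a ^ 2) k] at *
    nlinarith

lemma G_low {a : ℝ} (ha : |a| ≤ 1) (k : ℕ) :
    ((2 * k).choose k : ℝ) / 4 ^ k ≤ U a ((T a)^[2 * k] sg) 0 := by
  refine (e_low ha k).trans (le_of_eq ?_)
  rw [← ((TU a).iterate_left (2 * k)) sg, closed, closed, ← center, mul_sum, ← sum_add_distrib]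
  refine sum_congr rfl ?_
  rintro ⟨i, j⟩ hij
  have h1 : i + j = 2 * k := HasAntidiagonal.mem_antidiagonal.1 hij
  rw [Usg a _ (by simp only []; omega)]
  have e0 : ((0 : ℤ) + i - j = 0) ↔ i = j := by omega
  simp only [e0]
  ring

end Pool.Agent.H.MP_92436f_lc
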