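import Mathlib

namespace Pool.Agent.H.MP_92436f_lc
open Finset

def si (b : Bool) : ℤ := if b then 1 else -1

noncomputable def mu {n : ℕ} (D : Finset (Fin n → Bool)) (j : Fin n) : ℝ :=
  (∑ x ∈ D, (si (x j) : ℝ)) / D.card

lemma si_bd (b : Bool) : |(si b : ℝ)| ≤ 1 := by cases b <;> simp [si]

lemma mu_bd {n : ℕ} (D : Finset (Fin n → Bool)) (j : Fin n) : |mu D j| ≤ 1 := by
  unfold mu
  rcases D.eq_empty_or_nonempty with h | h
  · simp [h]
  have hc : (0 : ℝ) < D.card := by exact_mod_cast h.card_pos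
  rw [abs_div, abs_of_pos hc, div_le_one hc]
  refine (abs_sum_le_sum_abs _ _).trans ?_
  calc _ ≤ ∑ x ∈ D, (1 : ℝ) := sum_le_sum fun x _ => si_bd _
    _ = _ := by simp

lemma mu_mul {n : ℕ} {D : Finset (Fin n → Bool)} (h : D.Nonempty) (j : Fin n) :
    D.card * mu D j = ∑ x ∈ D, (si (x j) : ℝ) := by
  have hc : (0 : ℝ) < D.card := by exact_mod_cast h.card_pos
  unfold mu; field_simp

noncomputable def bad {n : ℕ} (D : Finset (Fin n → Bool)) (δ : ℝ) (h : Fin n → Bool → ℝ) :
    Finset (Fin n → Bool) :=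
  D.filter fun x => ∑ j, h j (x j) ≤
    ∑ j, ((1 + mu D j) / 2 * h j true + (1 - mu D j) / 2 * h j false) - δ * n

lemma far {n : ℕ} {D : Finset (Fin n → Bool)} {δ : ℝ} (hδ : 0 < δ) {h : Fin n → Bool → ℝ}
    (hh : ∀ j b, |h j b| ≤ 1) (hB : (bad D δ h).Nonempty) :
    δ ^ 2 * n ≤ ∑ j, (mu (bad D δ h) j - mu D j) ^ 2 := by
  set B := bad D δ h with hBd
  have hc : (0 : ℝ) < B.card := by exact_mod_cast hB.card_pos
  have h1 : ∑ x ∈ B, ∑ j, h j (x j) ≤ ∑ x ∈ B,
      (∑ j, ((1 + mu D j) / 2 * h j true + (1 - mu D j) / 2 * h j false) - δ * n) :=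
    sum_le_sum fun x hx => (mem_filter.1 hx).2
  have h2 : ∑ x ∈ B, ∑ j, h j (x j) =
      B.card * ∑ j, ((1 + mu B j) / 2 * h j true + (1 - mu B j) / 2 * h j false) := by
    rw [sum_comm, mul_sum]
    refine sum_congr rfl fun j _ => ?_
    have : ∀ x ∈ B, h j (x j) =
        (h j true + h j false) / 2 + (h j true - h j false) / 2 * (si (x j) : ℝ) := by
      intro x _
      cases x j <;> simp [si] <;> ring
    rw [sum_congr rfl this, sum_add_distrib, ← mul_sum, ← mu_mul hB, sum_const, nsmul_eq_mul]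
    ring
  rw [h2, sum_const, nsmul_eq_mul] at h1
  have h3 := le_of_mul_le_mul_left h1 hc
  have h4 : ∑ j, 2 * δ * (((1 + mu D j) / 2 * h j true + (1 - mu D j) / 2 * h j false) -
      ((1 + mu B j) / 2 * h j true + (1 - mu B j) / 2 * h j false)) ≤
      ∑ j, (δ ^ 2 + (mu B j - mu D j) ^ 2) := by
    refine sum_le_sum fun j _ => ?_
    have a1 := abs_le.1 (hh j true)
    have a2 := abs_le.1 (hh j false)
    set φ := (h j true - h j false) / 2 with hφ
    have a3 : φ ^ 2 ≤ 1 := by
      have : |φ| ≤ 1 := by rw [abs_le]; constructor <;> linarith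
      have := sq_le_one_iff_abs_le_one φ
      tauto
    have a4 : 2 * δ * (((1 + mu D j) / 2 * h j true + (1 - mu D j) / 2 * h j false) -
      ((1 + mu B j) / 2 * h j true + (1 - mu B j) / 2 * h j false)) =
        -2 * (δ * φ) * (mu B j - mu D j) := by rw [hφ]; ring
    rw [a4]
    nlinarith [sq_nonneg (δ * φ + (mu B j - mu D j)), mul_le_mul_of_nonneg_left a3 (sq_nonneg δ)]
  rw [← mul_sum, sum_sub_distrib, sum_add_distrib (s := univ) (f := fun _ => δ ^ 2), sum_const,
    card_univ, Fintype.card_fin, nsmul_eq_mul] at h4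
  nlinarith

lemma regular {n : ℕ} (hn : 0 < n) (C : Finset (Fin n → Bool)) (hC : C.Nonempty) {l : ℝ}
    (hl : 0 < l) : ∃ D ⊆ C, D.Nonempty ∧ Real.log C.card ≤ Real.log D.card + 1 / l ∧
      ∀ δ : ℝ, 0 < δ → ∀ h : Fin n → Bool → ℝ, (∀ j b, |h j b| ≤ 1) →
        ((bad D δ h).card : ℝ) * δ ^ 2 ≤ l * D.card := by
  have hn' : (0 : ℝ) < n := by exact_mod_cast hn
  obtain ⟨D, hD, hmax⟩ := exists_max_image (C.powerset.filter Finset.Nonempty)
    (fun D => ∑ j, mu D j ^ 2 + l * n * Real.log D.card) ⟨C, by simp [hC]⟩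
  obtain ⟨hDC, hDn⟩ := mem_filter.1 hD
  rw [mem_powerset] at hDC
  have hmax' : ∀ B ⊆ C, B.Nonempty → ∑ j, mu B j ^ 2 + l * n * Real.log B.card ≤
      ∑ j, mu D j ^ 2 + l * n * Real.log D.card := fun B h1 h2 => hmax B (by simp [h1, h2])
  have hc : (0 : ℝ) < D.card := by exact_mod_cast hDn.card_pos
  refine ⟨D, hDC, hDn, ?_, ?_⟩
  · have h1 := hmax' C subset_rfl hC
    have h2 : ∑ j, mu D j ^ 2 ≤ n := by
      calc _ ≤ ∑ j : Fin n, (1 : ℝ) :=
            sum_le_sum fun j _ => (sq_le_one_iff_abs_le_one _).2 (mu_bd D j)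
        _ = _ := by simp
    have h3 : 0 ≤ ∑ j, mu C j ^ 2 := sum_nonneg fun j _ => sq_nonneg _
    have h4 : l * n * Real.log C.card ≤ l * n * (Real.log D.card + 1 / l) := by
      have : l * n * (1 / l) = n := by field_simp
      rw [mul_add, this]; linarith
    exact le_of_mul_le_mul_left h4 (by positivity)
  · intro δ hδ h hh
    rcases (bad D δ h).eq_empty_or_nonempty with hB | hB
    · rw [hB]; simp; positivity
    have hfar := far hδ hh hB
    set B := bad D δ h with hBd
    have hBD : B ⊆ D := filter_subset _ _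
    rcases (D \ B).eq_empty_or_nonempty with hR | hR
    · exfalso
      have : B = D := Subset.antisymm hBD (sdiff_eq_empty_iff_subset.1 hR)
      rw [this] at hfar
      simp only [sub_self, ne_eq, OfNat.ofNat_ne_zero, not_false_eq_true, zero_pow,
        sum_const_zero] at hfar
      have : 0 < δ ^ 2 * n := by positivity
      linarith
    set R := D \ B with hRd
    have hb : (0 : ℝ) < B.card := by exact_mod_cast hB.card_pos
    have hr : (0 : ℝ) < R.card := by exact_mod_cast hR.card_pos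
    have hsum : (R.card : ℝ) + B.card = D.card := by exact_mod_cast card_sdiff_add_card_eq_card hBD
    have hmu : ∀ j, R.card * mu R j + B.card * mu B j = D.card * mu D j := fun j => by
      rw [mu_mul hR, mu_mul hB, mu_mul hDn, sum_sdiff hBD]
    have h1 := hmax' B (hBD.trans hDC) hB
    have h2 := hmax' R (sdiff_subset.trans hDC) hR
    have h3 : ∑ j, B.card * (mu B j - mu D j) ^ 2 ≤
        ∑ j, (B.card * mu B j ^ 2 + R.card * mu R j ^ 2 - D.card * mu D j ^ 2) := by
      refine sum_le_sum fun j _ => ?_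
      have e : B.card * mu B j ^ 2 + R.card * mu R j ^ 2 - D.card * mu D j ^ 2 =
          B.card * (mu B j - mu D j) ^ 2 + R.card * (mu R j - mu D j) ^ 2 := by
        linear_combination (2 * mu D j) * hmu j - (mu D j) ^ 2 * hsum
      rw [e]
      have : 0 ≤ R.card * (mu R j - mu D j) ^ 2 := by positivity
      linarith
    rw [← mul_sum, sum_sub_distrib, sum_add_distrib, ← mul_sum, ← mul_sum, ← mul_sum] at h3
    have key : ∀ x : ℝ, 0 < x → x * (Real.log D.card - Real.log x) ≤ D.card - x := by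
      intro x hx
      rw [← Real.log_div hc.ne' hx.ne']
      have := Real.log_le_sub_one_of_pos (div_pos hc hx)
      calc _ ≤ x * (D.card / x - 1) := mul_le_mul_of_nonneg_left this hx.le
        _ = _ := by field_simp
    have k1 := mul_le_mul_of_nonneg_left (key _ hb) (show 0 ≤ l * n by positivity)
    have k2 := mul_le_mul_of_nonneg_left (key _ hr) (show 0 ≤ l * n by positivity)
    have k3 := mul_le_mul_of_nonneg_left h1 hb.le
    have k4 := mul_le_mul_of_nonneg_left h2 hr.le
    have k5 := mul_le_mul_of_nonneg_left hfar hb.le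
    have k6 : (B.card * δ ^ 2) * n ≤ (l * D.card) * n := by
      have e1 : (D.card : ℝ) * ∑ j, mu D j ^ 2 = (R.card + B.card) * ∑ j, mu D j ^ 2 := by
        rw [hsum]
      have e2 : l * n * D.card = l * n * (R.card + B.card) := by rw [hsum]
      nlinarith
    exact le_of_mul_le_mul_right k6 hn'

end Pool.Agent.H.MP_92436f_lc
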