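import Pool.Agent.H.MP_92436f_lc.A
import Pool.Agent.H.MP_92436f_lc.B

namespace Pool.Agent.H.MP_92436f_lc
open Finset

def zz {n : ℕ} (F : Finset (Fin n → Bool)) (j : Fin n) : ℤ := ∑ x ∈ F, si (x j)

lemma zz_par {n : ℕ} (F : Finset (Fin n → Bool)) (j : Fin n) : (zz F j - F.card) % 2 = 0 := by
  induction F using Finset.induction_on with
  | empty => simp [zz]
  | insert x F hx ih =>
    unfold zz at ih ⊢
    rw [sum_insert hx, card_insert_of_notMem hx]
    push_cast
    cases x j <;> simp only [si] at ih ⊢ <;> simp at ih ⊢ <;> omega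

lemma si_t : si true = 1 := rfl
lemma si_f : si false = -1 := rfl

lemma select {n : ℕ} (D : Finset (Fin n → Bool)) (k : ℕ) {δ β : ℝ} (hβ0 : 0 ≤ β)
    (hβ : ∀ h : Fin n → Bool → ℝ, (∀ j b, |h j b| ≤ 1) → ((bad D δ h).card : ℝ) ≤ β)
    (hD : (2 * k + 2) * β + (2 * k + 1) < D.card) (t : ℕ) :
    ∀ r, t + r = 2 * k + 1 → ∃ F ⊆ D, F.card = t ∧
      (∀ x ∈ F, (((2 * k).choose k : ℝ) / 4 ^ k - t * δ) * n ≤
        ∑ j, (si (x j) : ℝ) * (T (mu D j))^[r] sg (zz F j)) ∧
      (∀ r', r = r' + 1 → (((2 * k).choose k : ℝ) / 4 ^ k - t * δ) * n ≤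
        ∑ j, U (mu D j) ((T (mu D j))^[r'] sg) (zz F j)) := by
  induction t with
  | zero =>
    intro r hr
    refine ⟨∅, empty_subset _, rfl, by simp, fun r' h => ?_⟩
    have : r' = 2 * k := by omega
    subst this
    calc _ = ∑ j : Fin n, ((2 * k).choose k : ℝ) / 4 ^ k := by simp [mul_comm]
      _ ≤ _ := sum_le_sum fun j _ => by simpa [zz] using G_low (mu_bd D j) k
  | succ t ih =>
    intro r hr
    obtain ⟨F, hFD, hFc, h1, h2⟩ := ih (r + 1) (by omega)
    replace h2 := h2 r rfl
    set g : Fin n → ℤ → ℝ := fun j => (T (mu D j))^[r] sg with hg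
    have gb : ∀ j z, |g j z| ≤ 1 := fun j z => Tit_bd (mu_bd D j) r z
    have mb : ∀ (b : Bool) (w : ℝ), |w| ≤ 1 → |(si b : ℝ) * w| ≤ 1 := fun b w hw => by
      rw [abs_mul]; exact mul_le_one₀ (si_bd b) (abs_nonneg _) hw
    set ha : (Fin n → Bool) → Fin n → Bool → ℝ :=
      fun x j b => (si (x j) : ℝ) * g j (zz F j + si b) with hha
    set hb : Fin n → Bool → ℝ := fun j b => (si b : ℝ) * g j (zz F j + si b) with hhb
    set hc : Fin n → Bool → ℝ :=
      fun j b => U (mu D j) ((T (mu D j))^[r - 1] sg) (zz F j + si b) with hhc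
    have b1 : ∀ x, ((bad D δ (ha x)).card : ℝ) ≤ β := fun x => hβ _ fun j b => mb _ _ (gb _ _)
    have b2 : ((bad D δ hb).card : ℝ) ≤ β := hβ _ fun j b => mb _ _ (gb _ _)
    have b3 : ((bad D δ hc).card : ℝ) ≤ β :=
      hβ _ fun j b => U_bd (mu_bd D j) (Tit_bd (mu_bd D j) _) _
    have hlt : ((F.biUnion fun x => bad D δ (ha x)) ∪ bad D δ hb ∪ bad D δ hc ∪ F).card
        < D.card := by
      have c1 : (((F.biUnion fun x => bad D δ (ha x))).card : ℝ) ≤ t * β := by
        calc _ ≤ ((∑ x ∈ F, (bad D δ (ha x)).card : ℕ) : ℝ) := by exact_mod_cast card_biUnion_le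
          _ ≤ ∑ x ∈ F, β := by push_cast; exact sum_le_sum fun x _ => b1 x
          _ = _ := by rw [sum_const, hFc, nsmul_eq_mul]
      have c2 : ((F.biUnion fun x => bad D δ (ha x)) ∪ bad D δ hb ∪ bad D δ hc ∪ F).card ≤
          (F.biUnion fun x => bad D δ (ha x)).card + (bad D δ hb).card + (bad D δ hc).card + t := by
        rw [← hFc]
        refine (card_union_le _ _).trans (Nat.add_le_add_right ?_ _)
        refine (card_union_le _ _).trans (Nat.add_le_add_right ?_ _)
        exact card_union_le _ _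
      have c3 : (((F.biUnion fun x => bad D δ (ha x)) ∪ bad D δ hb ∪ bad D δ hc ∪ F).card : ℝ) ≤
          (F.biUnion fun x => bad D δ (ha x)).card + (bad D δ hb).card + (bad D δ hc).card + t := by
        exact_mod_cast c2
      have c4 : (t : ℝ) ≤ 2 * k := by exact_mod_cast (show t ≤ 2 * k by omega)
      have c5 := mul_le_mul_of_nonneg_right c4 hβ0
      have : (((F.biUnion fun x => bad D δ (ha x)) ∪ bad D δ hb ∪ bad D δ hc ∪ F).card : ℝ)
        < D.card := by linarith
      exact_mod_cast this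
    obtain ⟨y, hyD, hy⟩ := exists_mem_notMem_of_card_lt_card hlt
    simp only [mem_union, mem_biUnion, not_or, not_exists, not_and] at hy
    obtain ⟨⟨⟨y1, y2⟩, y3⟩, y4⟩ := hy
    have nb : ∀ h : Fin n → Bool → ℝ, y ∉ bad D δ h →
        ∑ j, ((1 + mu D j) / 2 * h j true + (1 - mu D j) / 2 * h j false) - δ * n ≤
          ∑ j, h j (y j) := fun h hh => by
      by_contra hcon
      exact hh (mem_filter.2 ⟨hyD, (not_le.1 hcon).le⟩)
    have hz : ∀ j, zz (insert y F) j = zz F j + si (y j) := fun j => by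
      unfold zz; rw [sum_insert y4, add_comm]
    refine ⟨insert y F, insert_subset hyD hFD, by rw [card_insert_of_notMem y4, hFc], ?_, ?_⟩
    · intro x hx
      simp only [hz]
      rcases mem_insert.1 hx with rfl | hx
      · have e := nb hb y2
        have e2 : ∑ j, ((1 + mu D j) / 2 * hb j true + (1 - mu D j) / 2 * hb j false) =
            ∑ j, U (mu D j) ((T (mu D j))^[r] sg) (zz F j) := by
          refine sum_congr rfl fun j _ => ?_
          simp only [hhb, hg, U, si_t, si_f, ← sub_eq_add_neg]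
          push_cast; ring
        rw [e2] at e
        push_cast
        simp only [hhb, hg] at e
        linarith
      · have e := nb (ha x) (y1 x hx)
        have e2 : ∑ j, ((1 + mu D j) / 2 * ha x j true + (1 - mu D j) / 2 * ha x j false) =
            ∑ j, (si (x j) : ℝ) * (T (mu D j))^[r + 1] sg (zz F j) := by
          refine sum_congr rfl fun j _ => ?_
          rw [Function.iterate_succ_apply']
          simp only [hha, hg, T, si_t, si_f, ← sub_eq_add_neg]
          ring
        rw [e2] at e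
        have e3 := h1 x hx
        push_cast
        simp only [hha, hg] at e
        linarith
    · rintro r' rfl
      simp only [hz]
      have e := nb hc y3
      have e2 : ∑ j, ((1 + mu D j) / 2 * hc j true + (1 - mu D j) / 2 * hc j false) =
          ∑ j, U (mu D j) ((T (mu D j))^[r' + 1] sg) (zz F j) := by
        refine sum_congr rfl fun j _ => ?_
        rw [Function.iterate_succ_apply', ← TU (mu D j) _]
        simp only [hhc, Nat.add_sub_cancel, si_t, si_f, ← sub_eq_add_neg]
        rfl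
      rw [e2] at e
      push_cast
      simp only [hhc, Nat.add_sub_cancel] at e
      linarith

lemma final {n : ℕ} (F : Finset (Fin n → Bool)) (hF : F.card % 2 = 1) (x : Fin n → Bool) :
    ∑ j, (si (x j) : ℝ) * sg (zz F j) =
      n - 2 * (hammingDist (fun j => decide (0 < zz F j)) x : ℝ) := by
  have h1 : ∀ j, (si (x j) : ℝ) * sg (zz F j) =
      1 - 2 * (if decide (0 < zz F j) ≠ x j then 1 else 0) := by
    intro j
    have := zz_par F j
    by_cases h : 0 < zz F j
    · rw [sg_pos h]; cases x j <;> simp [si, h] <;> norm_num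
    · rw [sg_neg (by omega)]; cases x j <;> simp [si, h] <;> norm_num
  rw [sum_congr rfl fun j _ => h1 j, sum_sub_distrib, ← mul_sum, sum_boole, hammingDist]
  simp

lemma main (k : ℕ) {ε : ℝ} (hε : 0 < ε) {n : ℕ} (C : Finset (Fin n → Bool))
    (hC : ∀ x : Fin n → Bool, (C.filter (fun c => (hammingDist x c : ℝ) ≤
      ((1 : ℝ) / 2 - (Nat.choose (2 * k) k : ℝ) / (2 : ℝ) ^ (2 * k + 1) + ε) * (n : ℝ))).card
        < 2 * k + 1) :
    (C.card : ℝ) ≤ 2 * (2 * k + 1) * Real.exp ((k + 1) * (2 * k + 1) ^ 2 / ε ^ 2) := by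
  have hexp : 1 ≤ Real.exp ((k + 1) * (2 * k + 1) ^ 2 / ε ^ 2) := Real.one_le_exp (by positivity)
  have hk0 : (0 : ℝ) ≤ k := by positivity
  rcases Nat.eq_zero_or_pos n with hn | hn
  · subst hn
    have h1 : C.card ≤ 1 := by simpa using card_le_univ C
    have h2 : (C.card : ℝ) ≤ 1 := by exact_mod_cast h1
    nlinarith
  rcases C.eq_empty_or_nonempty with h | hCn
  · rw [h]; simp; positivity
  set δ : ℝ := 2 * ε / (2 * k + 1) with hδ
  have hδ0 : 0 < δ := by positivity
  obtain ⟨D, hDC, hDn, hlog, hreg⟩ :=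
    regular hn C hCn (l := δ ^ 2 / (4 * (k + 1))) (by positivity)
  have hc : (0 : ℝ) < D.card := by exact_mod_cast hDn.card_pos
  have hc' : (0 : ℝ) < C.card := by exact_mod_cast hCn.card_pos
  have hD : (D.card : ℝ) ≤ 2 * (2 * k + 1) := by
    by_contra hcon
    obtain ⟨F, hFD, hFc, h1, -⟩ := select D k (δ := δ) (β := D.card / (4 * (k + 1)))
      (by positivity) (fun h hh => by
        have := hreg δ hδ0 h hh
        have e : δ ^ 2 / (4 * (k + 1)) * D.card = D.card / (4 * (k + 1)) * δ ^ 2 := by ring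
        rw [e] at this
        exact le_of_mul_le_mul_right this (by positivity))
      (by
        have e : (2 * k + 2 : ℝ) * (D.card / (4 * (k + 1))) = D.card / 2 := by field_simp; ring
        rw [e]; linarith) (2 * k + 1) 0 rfl
    refine absurd (hC fun j => decide (0 < zz F j)) (not_lt.2 ?_)
    refine hFc.ge.trans (card_le_card fun x hx => mem_filter.2 ⟨hDC (hFD hx), ?_⟩)
    have h2 := h1 x hx
    simp only [Function.iterate_zero, id] at h2
    rw [final F (by omega) x] at h2
    have e1 : ((2 * k + 1 : ℕ) : ℝ) * δ = 2 * ε := by rw [hδ]; push_cast; field_simp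
    have e2 : (Nat.choose (2 * k) k : ℝ) / (2 : ℝ) ^ (2 * k + 1) =
        (Nat.choose (2 * k) k : ℝ) / 4 ^ k / 2 := by
      rw [pow_succ, pow_mul, div_div]; norm_num
    rw [e1] at h2
    rw [e2]
    linarith
  have e : 1 / (δ ^ 2 / (4 * (k + 1))) = (k + 1) * (2 * k + 1) ^ 2 / ε ^ 2 := by
    rw [hδ]; field_simp; ring
  rw [e] at hlog
  have h3 := Real.exp_le_exp.2 hlog
  rw [Real.exp_add, Real.exp_log hc, Real.exp_log hc'] at h3
  exact h3.trans (mul_le_mul_of_nonneg_right hD (by positivity))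

end Pool.Agent.H.MP_92436f_lc
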